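import Pool.Agent.Lib.MP_144d21_co.X2.IfaceC
import Pool.Agent.Lib.MP_144d21_co.X2.H16.Cut3

/-!
# MP_144d21_co, X2, module CHF (helper6): the chain formula for `bet`
-/

set_option autoImplicit false
set_option linter.unusedSectionVars false

namespace Pool.Agent.Xu.X2.H6

open Finset Pool.Agent.Xu Pool.Agent.Xu.X2 Pool.Agent.Xu.X2.H41

variable {V : Type} [Fintype V] [DecidableEq V]

/-- the set `R` has an edge -/
def HasE (G : SimpleGraph V) (R : Finset V) : Prop := ∃ a ∈ R, ∃ b ∈ R, G.Adj a b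

theorem HasE.mono {G G' : SimpleGraph V} {R R' : Finset V} (h : HasE G R) (hR : R ⊆ R')
    (hG : ∀ a b, G.Adj a b → G'.Adj a b) : HasE G' R' := by
  obtain ⟨a, ha, b, hb, hab⟩ := h
  exact ⟨a, hR ha, b, hR hb, hG a b hab⟩

/-- a pendant vertex -/
theorem pen (G : SimpleGraph V) (S : Finset V) (v y : V) (hv : v ∈ S) (hy : y ∈ S) (hvy : v ≠ y)
    (hn : ∀ x ∈ S, (G.Adj v x ↔ x = y)) (he : HasE G (S.erase v)) : bet G S = 0 := by
  have hU : ({v, y} : Finset V) ∪ S.erase v = S := by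
    ext x
    simp only [mem_union, mem_insert, mem_singleton, mem_erase]
    constructor
    · rintro ((rfl | rfl) | h)
      · exact hv
      · exact hy
      · exact h.2
    · intro h
      by_cases hx : x = v
      · exact Or.inl (Or.inl hx)
      · exact Or.inr ⟨hx, h⟩
  have hI : ({v, y} : Finset V) ∩ S.erase v = {y} := by
    ext x
    simp only [mem_inter, mem_insert, mem_singleton, mem_erase]
    constructor
    · rintro ⟨h1 | h1, h2⟩
      · exact absurd h1 h2.1
      · exact h1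
    · rintro rfl
      exact ⟨Or.inr rfl, hvy.symm, hy⟩
  have hs : Sep G ({v, y} : Finset V) (S.erase v) := by
    intro a ha ha' b hb hb' hab
    simp only [mem_insert, mem_singleton] at ha hb'
    rcases ha with rfl | rfl
    · have := (hn b (mem_of_mem_erase hb)).1 hab
      exact hb' (Or.inr this)
    · exact ha' (mem_erase.2 ⟨hvy.symm, hy⟩)
  have := bet_cut1 G ({v, y} : Finset V) (S.erase v) y hs hI
    ⟨v, by simp, y, by simp, (hn y hy).2 rfl⟩ he
  rwa [hU] at this

/-- a vertex of degree 2 -/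
theorem d2 (G : SimpleGraph V) (S : Finset V) (v x y : V) (hv : v ∈ S) (hx : x ∈ S) (hy : y ∈ S)
    (hvx : v ≠ x) (hvy : v ≠ y) (hxy : x ≠ y) (hn : ∀ u ∈ S, (G.Adj v u ↔ u = x ∨ u = y))
    (he : HasE G (S.erase v)) : bet G S = bet (add G x y) (S.erase v) := by
  have h1 := iBetdc V G S v x hv hx ((hn x hx).2 (Or.inl rfl))
  have h2 : bet (del G v x) S = 0 := by
    refine pen (del G v x) S v y hv hy hvy ?_ ?_
    · intro u hu
      rw [del_adj, hn u hu]
      constructor
      · rintro ⟨h | h, h3, _⟩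
        · exact absurd ⟨rfl, h⟩ h3
        · exact h
      · rintro rfl
        refine ⟨Or.inr rfl, ?_, ?_⟩
        · rintro ⟨_, h⟩; exact hxy h.symm
        · rintro ⟨h, _⟩; exact hvx h
    · obtain ⟨a, ha, b, hb, hab⟩ := he
      refine ⟨a, ha, b, hb, ?_⟩
      rw [del_adj]
      rw [mem_erase] at ha hb
      exact ⟨hab, fun h => ha.1 h.1, fun h => hb.1 h.2⟩
  have h3 : bet (con G v x) (S.erase v) = bet (add G x y) (S.erase v) := by
    apply bet_congr
    intro a ha b hb
    rw [mem_erase] at ha hb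
    rw [con_adj, add_adj, hn b hb.2, hn a ha.2]
    constructor
    · rintro ⟨hab, h | ⟨h4, h | h⟩ | ⟨h4, h | h⟩⟩
      · exact Or.inl h
      · exact absurd (h4.trans h.symm) hab
      · exact Or.inr ⟨hab, Or.inl ⟨h4, h⟩⟩
      · exact absurd (h.trans h4.symm) hab
      · exact Or.inr ⟨hab, Or.inr ⟨h, h4⟩⟩
    · rintro (h | ⟨hab, ⟨h4, h5⟩ | ⟨h4, h5⟩⟩)
      · exact ⟨h.ne, Or.inl h⟩
      · exact ⟨hab, Or.inr (Or.inl ⟨h4, Or.inr h5⟩)⟩
      · exact ⟨hab, Or.inr (Or.inr ⟨h5, Or.inr h4⟩)⟩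
  rw [h1, h2, h3, zero_add]

/-- a vertex of degree 3 -/
theorem d3 (G : SimpleGraph V) (S : Finset V) (v x y z : V) (hv : v ∈ S) (hx : x ∈ S) (hy : y ∈ S)
    (hz : z ∈ S) (hvx : v ≠ x) (hvy : v ≠ y) (hvz : v ≠ z) (hxy : x ≠ y) (hxz : x ≠ z)
    (hyz : y ≠ z) (hn : ∀ u ∈ S, (G.Adj v u ↔ u = x ∨ u = y ∨ u = z))
    (he : HasE G (S.erase v)) :
    bet G S = bet (add G x y) (S.erase v) + bet (add (add G z x) z y) (S.erase v) := by
  have h1 := iBetdc V G S v z hv hz ((hn z hz).2 (Or.inr (Or.inr rfl)))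
  have he' : HasE (del G v z) (S.erase v) := by
    obtain ⟨a, ha, b, hb, hab⟩ := he
    refine ⟨a, ha, b, hb, ?_⟩
    rw [del_adj]
    rw [mem_erase] at ha hb
    exact ⟨hab, fun h => ha.1 h.1, fun h => hb.1 h.2⟩
  have h2 : bet (del G v z) S = bet (add G x y) (S.erase v) := by
    rw [d2 (del G v z) S v x y hv hx hy hvx hvy hxy ?_ he']
    · apply bet_congr
      intro a ha b hb
      rw [mem_erase] at ha hb
      rw [add_adj, add_adj, del_adj]
      constructor
      · rintro (h | h)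
        · exact Or.inl h.1
        · exact Or.inr h
      · rintro (h | h)
        · exact Or.inl ⟨h, fun h => ha.1 h.1, fun h => hb.1 h.2⟩
        · exact Or.inr h
    · intro u hu
      rw [del_adj, hn u hu]
      constructor
      · rintro ⟨h | h | h, h3, _⟩
        · exact Or.inl h
        · exact Or.inr h
        · exact absurd ⟨rfl, h⟩ h3
      · intro h
        refine ⟨by tauto, ?_, ?_⟩
        · rintro ⟨_, h5⟩
          rcases h with h | h
          · exact hxz (h.symm.trans h5)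
          · exact hyz (h.symm.trans h5)
        · rintro ⟨h5, _⟩; exact hvz h5
  have h3 : bet (con G v z) (S.erase v) = bet (add (add G z x) z y) (S.erase v) := by
    apply bet_congr
    intro a ha b hb
    rw [mem_erase] at ha hb
    rw [con_adj, add_adj, add_adj, hn b hb.2, hn a ha.2]
    constructor
    · rintro ⟨hab, h | ⟨h4, h | h | h⟩ | ⟨h4, h | h | h⟩⟩
      · exact Or.inl (Or.inl h)
      · exact Or.inl (Or.inr ⟨hab, Or.inl ⟨h4, h⟩⟩)
      · exact Or.inr ⟨hab, Or.inl ⟨h4, h⟩⟩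
      · exact absurd (h4.trans h.symm) hab
      · exact Or.inl (Or.inr ⟨hab, Or.inr ⟨h, h4⟩⟩)
      · exact Or.inr ⟨hab, Or.inr ⟨h, h4⟩⟩
      · exact absurd (h.trans h4.symm) hab
    · rintro ((h | ⟨hab, ⟨h4, h5⟩ | ⟨h4, h5⟩⟩) | ⟨hab, ⟨h4, h5⟩ | ⟨h4, h5⟩⟩)
      · exact ⟨h.ne, Or.inl h⟩
      · exact ⟨hab, Or.inr (Or.inl ⟨h4, Or.inl h5⟩)⟩
      · exact ⟨hab, Or.inr (Or.inr ⟨h5, Or.inl h4⟩)⟩
      · exact ⟨hab, Or.inr (Or.inl ⟨h4, Or.inr (Or.inl h5)⟩)⟩
      · exact ⟨hab, Or.inr (Or.inr ⟨h5, Or.inr (Or.inl h4)⟩)⟩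
  rw [h1, h2, h3]

/-- the common part of the conditions: `c 0, ..., c k` -/
structure Sq (G : SimpleGraph V) (S : Finset V) (h : V) (c : ℕ → V) (k : ℕ) : Prop where
  hS : h ∈ S
  cS : ∀ i ≤ k, c i ∈ S
  inj : ∀ i ≤ k, ∀ j ≤ k, c i = c j → i = j
  ch : ∀ i ≤ k, c i ≠ h
  nbc : ∀ i, i + 1 < k → ∀ u ∈ S, (G.Adj (c (i + 1)) u ↔ u = c i ∨ u = c (i + 2) ∨ u = h)

theorem Sq.shift {G : SimpleGraph V} {S : Finset V} {h : V} {c : ℕ → V} {k : ℕ}
    (hc : Sq G S h c (k + 1)) : Sq G (S.erase (c 0)) h (fun i => c (i + 1)) k where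
  hS := mem_erase.2 ⟨(hc.ch 0 (by omega)).symm, hc.hS⟩
  cS i hi := mem_erase.2 ⟨fun e => by have := hc.inj (i + 1) (by omega) 0 (by omega) e; omega,
    hc.cS _ (by omega)⟩
  inj i hi j hj e := by
    have := hc.inj (i + 1) (by omega) (j + 1) (by omega) e
    omega
  ch i hi := hc.ch _ (by omega)
  nbc i hi u hu := hc.nbc (i + 1) (by omega) u (mem_of_mem_erase hu)

/-- the rest -/
def rest (S : Finset V) (c : ℕ → V) (k : ℕ) : Finset V := S \ (range k).image c

theorem mem_rest {S : Finset V} {c : ℕ → V} {k : ℕ} {x : V} :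
    x ∈ rest S c k ↔ x ∈ S ∧ ∀ i < k, x ≠ c i := by
  unfold rest
  rw [mem_sdiff, mem_image]
  refine and_congr_right fun _ => ?_
  constructor
  · intro h i hi e
    exact h ⟨i, mem_range.2 hi, e.symm⟩
  · rintro h ⟨i, hi, e⟩
    exact h i (mem_range.1 hi) e.symm

theorem rest_shift (S : Finset V) (c : ℕ → V) (k : ℕ) :
    rest (S.erase (c 0)) (fun i => c (i + 1)) k = rest S c (k + 1) := by
  ext x
  rw [mem_rest, mem_rest, mem_erase]
  constructor
  · rintro ⟨⟨h1, h2⟩, h3⟩
    refine ⟨h2, fun i hi => ?_⟩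
    rcases i with _ | i
    · exact h1
    · exact h3 i (by omega)
  · rintro ⟨h1, h2⟩
    exact ⟨⟨h2 0 (by omega), h1⟩, fun i hi => h2 (i + 1) (by omega)⟩

theorem rest_zero (S : Finset V) (c : ℕ → V) : rest S c 0 = S := by
  ext x
  rw [mem_rest]
  exact ⟨fun h => h.1, fun h => ⟨h, fun i hi => by omega⟩⟩

theorem rest_subset_erase (S : Finset V) (c : ℕ → V) (k : ℕ) :
    rest S c (k + 1) ⊆ S.erase (c 0) := by
  intro x hx
  rw [mem_rest] at hx
  exact mem_erase.2 ⟨hx.2 0 (by omega), hx.1⟩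

theorem le_add {G : SimpleGraph V} {x y : V} : ∀ a b, G.Adj a b → (add G x y).Adj a b :=
  fun _ _ h => Or.inl h

/-- half chains -/
theorem half (h : V) : ∀ (k : ℕ) (G : SimpleGraph V) (S : Finset V) (c : ℕ → V), Sq G S h c k →
    (0 < k → ∀ u ∈ S, (G.Adj (c 0) u ↔ u = c 1 ∨ u = h)) → HasE G (rest S c k) →
    bet (add G h (c 0)) S = bet (add G h (c k)) (rest S c k) := by
  intro k
  induction k with
  | zero =>
    intro G S c _ _ _
    rw [rest_zero]
  | succ k ih =>
    intro G S c hc h0 he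
    have h0' := h0 (by omega)
    have e1 : bet (add G h (c 0)) S = bet G S := by
      apply bet_congr
      intro a _ b _
      rw [add_adj]
      constructor
      · rintro (h1 | ⟨_, ⟨rfl, rfl⟩ | ⟨rfl, rfl⟩⟩)
        · exact h1
        · exact ((h0' a hc.hS).2 (Or.inr rfl)).symm
        · exact (h0' b hc.hS).2 (Or.inr rfl)
      · exact fun h => Or.inl h
    have hc1 : c 1 ∈ S := hc.cS 1 (by omega)
    have e2 := d2 G S (c 0) h (c 1) (hc.cS 0 (by omega)) hc.hS hc1 (hc.ch 0 (by omega))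
      (fun e => by have := hc.inj 0 (by omega) 1 (by omega) e; omega) (hc.ch 1 (by omega)).symm
      (fun u hu => by rw [h0' u hu]; tauto)
      (he.mono (rest_subset_erase S c k) fun _ _ h => h)
    have e3 := ih G (S.erase (c 0)) (fun i => c (i + 1)) hc.shift (fun hk u hu => by
      have h1 := hc.nbc 0 (by omega) u (mem_of_mem_erase hu)
      have h2 := (mem_erase.1 hu).1
      show G.Adj (c 1) u ↔ u = c 2 ∨ u = h
      rw [h1]; tauto) (by rw [rest_shift]; exact he)
    rw [rest_shift] at e3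
    rw [e1, e2]
    exact e3

theorem congr_add {G : SimpleGraph V} {S : Finset V} {p x y z : V} :
    bet (add (add G p x) y z) (S.erase x) = bet (add G y z) (S.erase x) := by
  apply bet_congr
  intro a ha b hb
  rw [mem_erase] at ha hb
  rw [add_adj, add_adj, add_adj]
  have h1 := ha.1
  have h2 := hb.1
  tauto

theorem congr_add2 {G : SimpleGraph V} {S : Finset V} {p x y z u w : V} :
    bet (add (add (add G p x) y z) u w) (S.erase x) = bet (add (add G y z) u w) (S.erase x) := by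
  apply bet_congr
  intro a ha b hb
  rw [mem_erase] at ha hb
  rw [add_adj, add_adj, add_adj, add_adj, add_adj]
  have h1 := ha.1
  have h2 := hb.1
  tauto

/-- the chain formula for `c 0, ..., c k` behind `p` -/
theorem full (h p : V) : ∀ (k : ℕ) (G : SimpleGraph V) (S : Finset V) (c : ℕ → V), Sq G S h c k →
    p ∈ S → p ≠ h → (∀ i ≤ k, c i ≠ p) →
    (0 < k → ∀ u ∈ S, ((add G p (c 0)).Adj (c 0) u ↔ u = p ∨ u = c 1 ∨ u = h)) →
    HasE G (rest S c k) →
    bet (add G p (c 0)) S = (k : ℤ) * bet (add (add G h p) h (c k)) (rest S c k) +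
      bet (add G p (c k)) (rest S c k) := by
  intro k
  induction k with
  | zero =>
    intro G S c _ _ _ _ _ _
    rw [rest_zero]
    push_cast
    ring
  | succ k ih =>
    intro G S c hc hp hph hcp h0 he
    have h0' := h0 (by omega)
    have hc1 : c 1 ∈ S := hc.cS 1 (by omega)
    have hc01 : c 0 ≠ c 1 := fun e => by
      have := hc.inj 0 (by omega) 1 (by omega) e; omega
    have e2 := d3 (add G p (c 0)) S (c 0) p (c 1) h (hc.cS 0 (by omega)) hp hc1 hc.hS
      (hcp 0 (by omega)) hc01 (hc.ch 0 (by omega))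
      (hcp 1 (by omega)).symm hph (hc.ch 1 (by omega)) h0'
      (he.mono (rest_subset_erase S c k) le_add)
    rw [congr_add, congr_add2] at e2
    have he' : HasE G (rest (S.erase (c 0)) (fun i => c (i + 1)) k) := by
      rw [rest_shift]; exact he
    have e3 := ih G (S.erase (c 0)) (fun i => c (i + 1)) hc.shift
      (mem_erase.2 ⟨(hcp 0 (by omega)).symm, hp⟩) hph (fun i hi => hcp (i + 1) (by omega))
      (fun hk u hu => by
        have h1 := hc.nbc 0 (by omega) u (mem_of_mem_erase hu)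
        have h2 := (mem_erase.1 hu).1
        have h3 : c 1 ≠ p := hcp 1 (by omega)
        show (add G p (c 1)).Adj (c 1) u ↔ u = p ∨ u = c 2 ∨ u = h
        rw [add_adj, h1]
        constructor
        · rintro ((h4 | h4 | h4) | ⟨_, ⟨h4, _⟩ | ⟨_, h4⟩⟩)
          · exact absurd h4 h2
          · exact Or.inr (Or.inl h4)
          · exact Or.inr (Or.inr h4)
          · exact absurd h4 h3
          · exact Or.inl h4
        · rintro (rfl | h4 | h4)
          · exact Or.inr ⟨h3, Or.inr ⟨rfl, rfl⟩⟩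
          · exact Or.inl (Or.inr (Or.inl h4))
          · exact Or.inl (Or.inr (Or.inr h4))) he'
    rw [rest_shift] at e3
    have hc' : Sq (add G h p) (S.erase (c 0)) h (fun i => c (i + 1)) k := by
      have h1 := hc.shift
      refine ⟨h1.hS, h1.cS, h1.inj, h1.ch, fun i hi u hu => ?_⟩
      have h2 := h1.nbc i hi u hu
      have h3 : c (i + 1 + 1) ≠ h := hc.ch _ (by omega)
      have h4 : c (i + 1 + 1) ≠ p := hcp _ (by omega)
      rw [add_adj, h2]
      tauto
    have e4 := half h k (add G h p) (S.erase (c 0)) (fun i => c (i + 1)) hc' (fun hk u hu => by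
      have h1 := hc.nbc 0 (by omega) u (mem_of_mem_erase hu)
      have h2 := (mem_erase.1 hu).1
      have h3 : c 1 ≠ h := hc.ch _ (by omega)
      have h4 : c 1 ≠ p := hcp _ (by omega)
      show (add G h p).Adj (c 1) u ↔ u = c 2 ∨ u = h
      rw [add_adj, h1]
      tauto) (he'.mono (fun _ h => h) le_add)
    rw [rest_shift] at e4
    rw [e2]
    have e3' : bet (add G p (c 1)) (S.erase (c 0)) =
        (k : ℤ) * bet (add (add G h p) h (c (k + 1))) (rest S c (k + 1)) +
        bet (add G p (c (k + 1))) (rest S c (k + 1)) := e3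
    have e4' : bet (add (add G h p) h (c 1)) (S.erase (c 0)) =
        bet (add (add G h p) h (c (k + 1))) (rest S c (k + 1)) := e4
    rw [e3', e4']
    push_cast
    ring

theorem mem_nb' {G : SimpleGraph V} {S : Finset V} {v a b c : V} (h : nb G S v = {a, b, c}) :
    ∀ u ∈ S, (G.Adj v u ↔ u = a ∨ u = b ∨ u = c) := by
  intro u hu
  have h1 : u ∈ nb G S v ↔ u = a ∨ u = b ∨ u = c := by
    rw [h]; simp only [mem_insert, mem_singleton]
  rw [mem_nb] at h1
  tauto

end Pool.Agent.Xu.X2.H6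

namespace Pool.Agent.Xu.X2

open Finset Pool.Agent.Xu.X2.H41 Pool.Agent.Xu.X2.H6

theorem chf : ChfS := by
  intro V _ _ G S h m b hc he
  have hm := hc.m2
  obtain ⟨k, rfl⟩ : ∃ k, m = k + 2 := ⟨m - 2, by omega⟩
  set c : ℕ → V := fun i => b (i + 1) with hcdef
  have hin : ∀ i, 0 < i → i < k + 2 → ∀ u ∈ S, (G.Adj (b i) u ↔ u = b (i - 1) ∨ u = b (i + 1) ∨
      u = h) := fun i hi hi' => mem_nb' (hc.nbb i hi hi')
  have hsq : Sq G S h c (k + 1) := by
    refine ⟨hc.hS, fun i hi => hc.bS _ (by omega), fun i hi j hj e => ?_, fun i hi => hc.bh _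
      (by omega), fun i hi u hu => ?_⟩
    · have := hc.inj (i + 1) (by omega) (j + 1) (by omega) e
      omega
    · exact hin (i + 2) (by omega) (by omega) u hu
  have hR : rest S c (k + 1) = S \ inner b (k + 2) := by
    ext x
    rw [mem_rest, mem_sdiff, mem_inner]
    refine and_congr_right fun _ => ?_
    constructor
    · rintro h1 ⟨i, hi, hi', e⟩
      refine h1 (i - 1) (by omega) ?_
      show x = b (i - 1 + 1)
      rw [Nat.sub_add_cancel hi]; exact e.symm
    · rintro h1 i hi e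
      exact h1 ⟨i + 1, by omega, by omega, e.symm⟩
  have hp0 : ∀ i, 0 < i → i ≤ k + 2 → b i ≠ b 0 := fun i hi hi' e => by
    have := hc.inj i hi' 0 (by omega) e
    omega
  have hn1 : ∀ u ∈ S, (G.Adj (b 1) u ↔ u = b 0 ∨ u = b 2 ∨ u = h) := hin 1 (by omega) (by omega)
  have hf := full h (b 0) (k + 1) G S c hsq (hc.bS 0 (by omega)) (hc.bh 0 (by omega))
    (fun i hi => hp0 _ (by omega) (by omega)) (fun _ u hu => by
      show (add G (b 0) (b 1)).Adj (b 1) u ↔ u = b 0 ∨ u = b 2 ∨ u = h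
      rw [add_adj, hn1 u hu]
      have := hp0 1 (by omega) (by omega)
      tauto) (by
        rw [hR]
        obtain ⟨x, hx, y, hy, hxy⟩ := he
        exact ⟨x, hx, y, hy, hxy⟩)
  have e1 : bet (add G (b 0) (c 0)) S = bet G S := by
    apply bet_congr
    intro x _ y _
    rw [add_adj]
    constructor
    · rintro (h1 | ⟨_, ⟨rfl, rfl⟩ | ⟨rfl, rfl⟩⟩)
      · exact h1
      · exact ((hn1 (b 0) (hc.bS 0 (by omega))).2 (Or.inl rfl)).symm
      · exact (hn1 (b 0) (hc.bS 0 (by omega))).2 (Or.inl rfl)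
    · exact fun h => Or.inl h
  rw [hR, e1] at hf
  rw [hf]
  have ck : c (k + 1) = b (k + 2) := rfl
  rw [ck]
  have e2 : bet (add (add G h (b 0)) h (b (k + 2))) (S \ inner b (k + 2)) =
      bet (G ⊔ tE (cT h b (k + 2)) {1, 2}) (S \ inner b (k + 2)) := by
    apply bet_congr
    intro x _ y _
    rw [add_adj, add_adj, SimpleGraph.sup_adj]
    have e : (tE (cT h b (k + 2)) {1, 2}).Adj x y ↔ (x ≠ y ∧
        (((x = b (k + 2) ∧ y = h) ∨ (x = h ∧ y = b (k + 2))) ∨
        ((x = h ∧ y = b 0) ∨ (x = b 0 ∧ y = h)))) := by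
      show (x ≠ y ∧ ∃ i ∈ ({1, 2} : Finset (Fin 3)), _) ↔ _
      simp only [mem_insert, mem_singleton, exists_eq_or_imp, exists_eq_left]
      rfl
    rw [e]
    tauto
  have e3 : bet (add G (b 0) (b (k + 2))) (S \ inner b (k + 2)) =
      bet (G ⊔ tE (cT h b (k + 2)) {0}) (S \ inner b (k + 2)) := by
    apply bet_congr
    intro x _ y _
    rw [add_adj, SimpleGraph.sup_adj]
    have e : (tE (cT h b (k + 2)) {0}).Adj x y ↔ (x ≠ y ∧
        ((x = b 0 ∧ y = b (k + 2)) ∨ (x = b (k + 2) ∧ y = b 0))) := by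
      show (x ≠ y ∧ ∃ i ∈ ({0} : Finset (Fin 3)), _) ↔ _
      simp only [mem_singleton, exists_eq_left]
      rfl
    rw [e]
  rw [e2, e3]
  push_cast
  ring

end Pool.Agent.Xu.X2
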